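import Mathlib

/-!
# Consecutive `n`-th powers summing to the next `n`-th power

If `k ^ n + (k + 1) ^ n + ... + (k + m) ^ n = (k + m + 1) ^ n` with `n ≥ 4` and `k, m ≥ 1` then
`n = 2 ^ v * o` with `v ≥ 1` and `o ≥ 7` odd, `k + m + 1` is odd, and `m + 1 ≡ 2, 3` modulo
`2 ^ (v + 3)`.  In particular there is no solution in odd degrees `n ≥ 5` and in the even degrees
`2 ^ v`, `3 * 2 ^ v` and `5 * 2 ^ v` (`n ≥ 4`).
-/

namespace Pool.Agent.Results.MP_d0b36d_nt.OddPart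

open Finset

/-- power sums over the symmetric progression `-(M-1), -(M-3), ..., M-3, M-1` -/
def R (l M : ℕ) : ℤ := ∑ j ∈ range M, (2 * (j : ℤ) - ((M : ℤ) - 1)) ^ l

theorem R_odd (l M : ℕ) (hl : Odd l) : R l M = 0 := by
  have h : R l M = - R l M := by
    conv_lhs => rw [R, ← Finset.sum_range_reflect]
    rw [R, ← Finset.sum_neg_distrib]
    apply Finset.sum_congr rfl
    intro j hj
    rw [Finset.mem_range] at hj
    rw [← hl.neg_pow]
    congr 1
    have : ((M - 1 - j : ℕ) : ℤ) = (M : ℤ) - 1 - j := by omega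
    rw [this]; ring
  linarith

theorem expand (l M : ℕ) (c : ℤ) :
    ∑ j ∈ range M, (c + (2 * (j : ℤ) - ((M : ℤ) - 1))) ^ l =
      ∑ e ∈ range (l + 1), (l.choose e : ℤ) * c ^ (l - e) * R e M := by
  have h : ∀ j : ℕ, (c + (2 * (j : ℤ) - ((M : ℤ) - 1))) ^ l =
      ∑ e ∈ range (l + 1), (l.choose e : ℤ) * c ^ (l - e) * (2 * (j : ℤ) - ((M : ℤ) - 1)) ^ e := by
    intro j
    rw [add_comm, add_pow]
    apply Finset.sum_congr rfl
    intro e _
    ring
  simp only [h]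
  rw [Finset.sum_comm]
  apply Finset.sum_congr rfl
  intro e _
  rw [R, Finset.mul_sum]

theorem R_double (l M : ℕ) (hl : Even l) :
    R l (2 * M) = 2 * ∑ j ∈ range M, (2 * (j : ℤ) + 1) ^ l := by
  rw [R, two_mul M, Finset.sum_range_add]
  have h1 : ∑ j ∈ range M, (2 * (j : ℤ) - (((M + M : ℕ) : ℤ) - 1)) ^ l =
      ∑ j ∈ range M, (2 * (j : ℤ) + 1) ^ l := by
    rw [← Finset.sum_range_reflect]
    apply Finset.sum_congr rfl
    intro j hj
    rw [Finset.mem_range] at hj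
    rw [← hl.neg_pow]
    congr 1
    have : ((M - 1 - j : ℕ) : ℤ) = (M : ℤ) - 1 - j := by omega
    rw [this]; push_cast; ring
  have h2 : ∑ j ∈ range M, (2 * ((M + j : ℕ) : ℤ) - (((M + M : ℕ) : ℤ) - 1)) ^ l =
      ∑ j ∈ range M, (2 * (j : ℤ) + 1) ^ l := by
    apply Finset.sum_congr rfl
    intro j _
    congr 1
    push_cast; ring
  rw [h1, h2]; ring

theorem sum_odd (l M : ℕ) (a : ℤ) (hM : Odd M) :
    Odd (∑ j ∈ range M, (2 * (a + (j : ℤ)) + 1) ^ l) := by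
  have h : ∀ M : ℕ, (∑ j ∈ range M, (2 * (a + (j : ℤ)) + 1) ^ l) % 2 = (M : ℤ) % 2 := by
    intro M
    induction M with
    | zero => simp
    | succ M ih =>
      rw [Finset.sum_range_succ]
      have h1 : Odd ((2 * (a + (M : ℤ)) + 1) ^ l) := Odd.pow ⟨a + M, rfl⟩
      have h2 := Int.odd_iff.1 h1
      push_cast
      omega
  rw [Int.odd_iff, h]
  obtain ⟨t, rfl⟩ := hM
  push_cast; omega

theorem R_val : ∀ (v m l : ℕ), Odd m → Even l →
    ∃ u : ℤ, Odd u ∧ R l (2 ^ (v + 1) * m) = 2 ^ (v + 1) * u := by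
  intro v
  induction v with
  | zero =>
    intro m l hm hl
    refine ⟨∑ j ∈ range m, (2 * (j : ℤ) + 1) ^ l, ?_, ?_⟩
    · have := sum_odd l m 0 hm
      simpa using this
    · rw [zero_add, pow_one, pow_one, R_double l m hl]
  | succ v ih =>
    intro m l hm hl
    obtain ⟨u, hu, hu2⟩ := ih m l hm hl
    set M' := 2 ^ (v + 1) * m with hM'
    have e1 : 2 ^ (v + 1 + 1) * m = 2 * M' := by rw [hM', pow_succ]; ring
    have e2 : ∑ j ∈ range M', (2 * (j : ℤ) + 1) ^ l =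
        ∑ j ∈ range M', ((M' : ℤ) + (2 * (j : ℤ) - ((M' : ℤ) - 1))) ^ l := by
      apply Finset.sum_congr rfl
      intro j _
      congr 1
      ring
    have hdiv : ∀ e ∈ range l, (2 : ℤ) ^ (v + 2) ∣ (l.choose e : ℤ) * (M' : ℤ) ^ (l - e) * R e M' := by
      intro e he
      rw [Finset.mem_range] at he
      rcases Nat.even_or_odd e with hev | hod
      · obtain ⟨u', _, hu'⟩ := ih m e hm hev
        rw [hu']
        have h1 : 1 ≤ l - e := by omega
        obtain ⟨s, hs⟩ : ∃ s, l - e = s + 1 := ⟨l - e - 1, by omega⟩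
        have h2 : (M' : ℤ) = 2 * (2 ^ v * m) := by rw [hM']; push_cast; ring
        refine ⟨(l.choose e : ℤ) * (M' : ℤ) ^ s * (2 ^ v * m) * u', ?_⟩
        rw [hs, pow_succ (M' : ℤ) s]
        nth_rewrite 2 [h2]
        ring
      · rw [R_odd e M' hod, mul_zero]
        exact dvd_zero _
    obtain ⟨w, hw⟩ := Finset.dvd_sum hdiv
    refine ⟨u + 2 * w, ?_, ?_⟩
    · exact hu.add_even ⟨w, by ring⟩
    · rw [e1, R_double l M' hl, e2, expand, Finset.sum_range_succ, hw, hu2]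
      simp only [Nat.choose_self, Nat.sub_self, pow_zero]
      push_cast
      ring

theorem main_val (n v m : ℕ) (c : ℤ) (hn : Odd n) (hm : Odd m) (hc : Even c) :
    ∃ u : ℤ, Odd u ∧ ∑ j ∈ range (2 ^ (v + 1) * m),
      (c + (2 * (j : ℤ) - (((2 ^ (v + 1) * m : ℕ) : ℤ) - 1))) ^ n = c * 2 ^ (v + 1) * u := by
  obtain ⟨r, rfl⟩ := hn
  obtain ⟨u, hu, hu2⟩ := R_val v m (2 * r) hm (even_two_mul r)
  have hdiv : ∀ e ∈ range (2 * r), (c * 2 ^ (v + 2) : ℤ) ∣
      ((2 * r + 1).choose e : ℤ) * c ^ (2 * r + 1 - e) * R e (2 ^ (v + 1) * m) := by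
    intro e he
    rw [Finset.mem_range] at he
    rcases Nat.even_or_odd e with hev | hod
    · obtain ⟨u', _, hu'⟩ := R_val v m e hm hev
      rw [hu']
      obtain ⟨s, hs⟩ : ∃ s, 2 * r + 1 - e = s + 2 := ⟨2 * r - 1 - e, by omega⟩
      obtain ⟨c', hc'⟩ := hc
      have hc2 : c = 2 * c' := by rw [hc']; ring
      refine ⟨((2 * r + 1).choose e : ℤ) * c ^ s * c' * u', ?_⟩
      rw [hs, pow_succ c (s + 1), pow_succ c s]
      nth_rewrite 2 [hc2]
      ring
    · rw [R_odd e _ hod, mul_zero]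
      exact dvd_zero _
  obtain ⟨w, hw⟩ := Finset.dvd_sum hdiv
  refine ⟨(2 * r + 1) * u + 2 * w, ?_, ?_⟩
  · have h1 : Odd ((2 * (r : ℤ) + 1) * u) := Odd.mul ⟨r, rfl⟩ hu
    exact h1.add_even ⟨w, by ring⟩
  · rw [expand, Finset.sum_range_succ, Finset.sum_range_succ, hw, hu2,
      R_odd (2 * r + 1) _ ⟨r, rfl⟩]
    have h1 : 2 * r + 1 - 2 * r = 1 := by omega
    have h2 : (2 * r + 1).choose (2 * r) = 2 * r + 1 := Nat.choose_succ_self_right (2 * r)
    rw [h1, h2]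
    push_cast
    ring

theorem range_half (n : ℕ) : ∀ x : ℕ, ∃ w : ℤ, ∑ i ∈ range x, (i : ℤ) ^ n =
    ∑ j ∈ range (x / 2), (2 * (j : ℤ) + 1) ^ n + 2 ^ n * w := by
  have h : ∀ y : ℕ, ∃ w : ℤ, ∑ i ∈ range (2 * y), (i : ℤ) ^ n =
      ∑ j ∈ range y, (2 * (j : ℤ) + 1) ^ n + 2 ^ n * w := by
    intro y
    induction y with
    | zero => exact ⟨0, by simp⟩
    | succ y ih =>
      obtain ⟨w, hw⟩ := ih
      refine ⟨w + (y : ℤ) ^ n, ?_⟩
      have e : 2 * (y + 1) = 2 * y + 1 + 1 := by ring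
      rw [e, Finset.sum_range_succ, Finset.sum_range_succ, Finset.sum_range_succ, hw]
      push_cast
      rw [mul_pow]
      ring
  intro x
  rcases Nat.even_or_odd' x with ⟨y, rfl | rfl⟩
  · obtain ⟨w, hw⟩ := h y
    refine ⟨w, ?_⟩
    rw [hw]
    have : 2 * y / 2 = y := by omega
    rw [this]
  · obtain ⟨w, hw⟩ := h y
    refine ⟨w + (y : ℤ) ^ n, ?_⟩
    have : (2 * y + 1) / 2 = y := by omega
    rw [Finset.sum_range_succ, hw, this]
    push_cast
    rw [mul_pow]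
    ring

theorem odd_pow_mod4 (n : ℕ) (hn : Odd n) (x : ℤ) (hx : Odd x) : ∃ w : ℤ, x ^ n = x + 4 * w := by
  obtain ⟨r, rfl⟩ := hn
  obtain ⟨y, rfl⟩ := hx
  have h : ∃ w : ℤ, ((2 * y + 1) ^ 2) ^ r = 1 + 4 * w := by
    induction r with
    | zero => exact ⟨0, by simp⟩
    | succ r ih =>
      obtain ⟨w, hw⟩ := ih
      refine ⟨w * (2 * y + 1) ^ 2 + y ^ 2 + y, ?_⟩
      rw [pow_succ, hw]
      ring
  obtain ⟨w, hw⟩ := h
  refine ⟨w * (2 * y + 1), ?_⟩
  rw [pow_succ, pow_mul, hw]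
  ring

theorem sum_mod4 (n : ℕ) (hn : Odd n) : ∀ y : ℕ, ∃ w : ℤ,
    ∑ j ∈ range y, (2 * (j : ℤ) + 1) ^ n = (y : ℤ) ^ 2 + 4 * w := by
  intro y
  induction y with
  | zero => exact ⟨0, by simp⟩
  | succ y ih =>
    obtain ⟨w, hw⟩ := ih
    obtain ⟨w', hw'⟩ := odd_pow_mod4 n hn (2 * (y : ℤ) + 1) ⟨y, rfl⟩
    refine ⟨w + w', ?_⟩
    rw [Finset.sum_range_succ, hw, hw']
    push_cast
    ring

theorem size_aux (n : ℕ) (hn : 7 ≤ n) : 9 * n ^ 2 < 2 ^ (n + 2) := by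
  induction n, hn using Nat.le_induction with
  | base => norm_num
  | succ n hn ih =>
    have e : 2 ^ (n + 1 + 2) = 2 * 2 ^ (n + 2) := by ring
    rw [e]
    nlinarith

theorem size (n N : ℕ) (hn : 5 ≤ n) (hodd : Odd n) (hN : 2 ≤ N) (h1 : 2 ^ (n + 2) ≤ N ^ 2)
    (h2 : (N - 1) ^ n + (N - 2) ^ n ≤ N ^ n) : False := by
  -- Bernoulli
  have hB : ¬ 3 * n < N := by
    intro h3
    have hNr : (0 : ℝ) < N := by exact_mod_cast (by omega : 0 < N)
    have h3r : (3 : ℝ) * n < N := by exact_mod_cast h3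
    have e1 : (((N - 1 : ℕ) : ℝ)) = (N : ℝ) * (1 + (-(1 / (N : ℝ)))) := by
      rw [Nat.cast_sub (by omega)]; field_simp; push_cast; ring
    have e2 : (((N - 2 : ℕ) : ℝ)) = (N : ℝ) * (1 + (-(2 / (N : ℝ)))) := by
      rw [Nat.cast_sub (by omega)]; field_simp; push_cast; ring
    have h2r : (((N - 1 : ℕ) : ℝ)) ^ n + (((N - 2 : ℕ) : ℝ)) ^ n ≤ (N : ℝ) ^ n := by
      exact_mod_cast h2
    rw [e1, e2, mul_pow, mul_pow] at h2r
    have hN2 : (2 : ℝ) ≤ N := by exact_mod_cast hN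
    have b1 := one_add_mul_le_pow (a := -(1 / (N : ℝ))) (by
      have : 1 / (N : ℝ) ≤ 1 := by rw [div_le_one hNr]; linarith
      linarith) n
    have b2 := one_add_mul_le_pow (a := -(2 / (N : ℝ))) (by
      have : 2 / (N : ℝ) ≤ 1 := by rw [div_le_one hNr]; linarith
      linarith) n
    have hp : (0 : ℝ) < (N : ℝ) ^ n := by positivity
    have b3 : (1 + (n : ℝ) * -(1 / (N : ℝ))) + (1 + (n : ℝ) * -(2 / (N : ℝ))) ≤ 1 := by
      have h4 : (N : ℝ) ^ n * ((1 + (-(1 / (N : ℝ)))) ^ n + (1 + (-(2 / (N : ℝ)))) ^ n) ≤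
          (N : ℝ) ^ n * 1 := by linarith
      have h5 := le_of_mul_le_mul_left h4 hp
      linarith
    have b4 : (n : ℝ) * (1 / (N : ℝ)) + (n : ℝ) * (2 / (N : ℝ)) < 1 := by
      have : (n : ℝ) * (1 / (N : ℝ)) + (n : ℝ) * (2 / (N : ℝ)) = 3 * n / N := by
        field_simp; ring
      rw [this, div_lt_one hNr]; exact h3r
    nlinarith
  rcases Nat.lt_or_ge n 7 with h7 | h7
  · have h5 : n = 5 := by
      obtain ⟨r, rfl⟩ := hodd
      omega
    subst h5
    have hN12 : 12 ≤ N := by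
      by_contra hcon
      have : N ≤ 11 := by omega
      have : N ^ 2 ≤ 11 ^ 2 := Nat.pow_le_pow_left this 2
      norm_num at h1 this
      omega
    have hN15 : N ≤ 15 := by omega
    interval_cases N <;> norm_num at h2
  · have h8 := size_aux n h7
    have h9 : N ^ 2 ≤ (3 * n) ^ 2 := Nat.pow_le_pow_left (by omega) 2
    have h10 : (3 * n) ^ 2 = 9 * n ^ 2 := by ring
    omega

/-- no solutions of odd degree `n ≥ 5` -/
theorem odd_case (n k m : ℕ) (hodd : Odd n) (hn : 5 ≤ n) (hk : 1 ≤ k) (hm : 1 ≤ m) :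
    ∑ i ∈ Finset.Icc k (k + m), i ^ n ≠ (k + m + 1) ^ n := by
  intro heq
  set N := k + m + 1 with hN
  have hIcc : Finset.Icc k (k + m) = Finset.Ico k N := by
    ext i; simp only [Finset.mem_Icc, Finset.mem_Ico]; omega
  rw [hIcc] at heq
  -- size inequality
  have h2 : (N - 1) ^ n + (N - 2) ^ n ≤ N ^ n := by
    rw [← heq]
    have hsub : ({N - 1, N - 2} : Finset ℕ) ⊆ Finset.Ico k N := by
      intro x hx
      simp only [Finset.mem_insert, Finset.mem_singleton] at hx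
      rw [Finset.mem_Ico]
      omega
    have h3 := Finset.sum_le_sum_of_subset (f := fun i => i ^ n) hsub
    rw [Finset.sum_pair (by omega)] at h3
    exact h3
  -- prefix sums
  have hZ : ∑ i ∈ range N, (i : ℤ) ^ n = ∑ i ∈ range k, (i : ℤ) ^ n + (N : ℤ) ^ n := by
    have h3 : ∑ i ∈ Finset.Ico k N, (i : ℤ) ^ n = (N : ℤ) ^ n := by exact_mod_cast heq
    rw [← h3, Finset.sum_range_add_sum_Ico _ (by omega)]
  obtain ⟨w1, hw1⟩ := range_half n N
  obtain ⟨w2, hw2⟩ := range_half n k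
  rw [hw1, hw2] at hZ
  set a := k / 2 with ha
  have h4 : (4 : ℤ) ∣ 2 ^ n := by
    have : (2 : ℤ) ^ 2 ∣ 2 ^ n := pow_dvd_pow 2 (by omega)
    simpa using this
  rcases Nat.even_or_odd' N with ⟨b, hb | hb⟩
  · -- N even
    have hb2 : N / 2 = b := by omega
    rw [hb2] at hZ
    have hab : a + 1 ≤ b := by omega
    obtain ⟨M, hM⟩ : ∃ M, b = a + M := ⟨b - a, by omega⟩
    have hM1 : 1 ≤ M := by omega
    have hS : ∑ j ∈ range b, (2 * (j : ℤ) + 1) ^ n = ∑ j ∈ range a, (2 * (j : ℤ) + 1) ^ n +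
        ∑ j ∈ range M, (2 * ((a : ℤ) + (j : ℤ)) + 1) ^ n := by
      rw [hM, Finset.sum_range_add]
      simp only [Nat.cast_add]
    have hdvd : (2 : ℤ) ^ n ∣ ∑ j ∈ range M, (2 * ((a : ℤ) + (j : ℤ)) + 1) ^ n := by
      refine ⟨w2 - w1 + (b : ℤ) ^ n, ?_⟩
      have h5 : (N : ℤ) ^ n = 2 ^ n * (b : ℤ) ^ n := by
        rw [hb]; push_cast; rw [mul_pow]
      rw [hS, h5] at hZ
      linarith
    rcases Nat.even_or_odd M with hMe | hMo
    · obtain ⟨v, m', hm', hMv⟩ := Nat.exists_eq_two_pow_mul_odd (n := M) (by omega)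
      obtain ⟨v', rfl⟩ : ∃ v', v = v' + 1 := by
        rcases v with _ | v'
        · exfalso
          rw [pow_zero, one_mul] at hMv
          rw [hMv] at hMe
          exact (Nat.not_even_iff_odd.2 hm') hMe
        · exact ⟨v', rfl⟩
      have hC : Even ((2 * (a : ℤ) + (M : ℤ))) := by
        obtain ⟨t, ht⟩ := hMe
        refine ⟨a + t, ?_⟩
        rw [ht]; push_cast; ring
      obtain ⟨u, hu, hu2⟩ := main_val n v' m' (2 * (a : ℤ) + (M : ℤ)) hodd hm' hC
      rw [← hMv] at hu2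
      have e1 : ∑ j ∈ range M, (2 * ((a : ℤ) + (j : ℤ)) + 1) ^ n =
          ∑ j ∈ range M, ((2 * (a : ℤ) + (M : ℤ)) + (2 * (j : ℤ) - ((M : ℤ) - 1))) ^ n := by
        apply Finset.sum_congr rfl
        intro j _
        congr 1
        ring
      rw [e1, hu2] at hdvd
      have hcop : IsCoprime ((2 : ℤ) ^ n) u := by
        apply IsCoprime.pow_left
        exact (Int.prime_two.coprime_iff_not_dvd).2
          (fun h => (Int.not_even_iff_odd.2 hu) (even_iff_two_dvd.2 h))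
      have hdvd2 : (2 : ℤ) ^ n ∣ (2 * (a : ℤ) + (M : ℤ)) * 2 ^ (v' + 1) :=
        hcop.dvd_of_dvd_mul_right hdvd
      have hle : (2 : ℤ) ^ n ≤ (2 * (a : ℤ) + (M : ℤ)) * 2 ^ (v' + 1) := by
        apply Int.le_of_dvd _ hdvd2
        have : (0 : ℤ) < M := by exact_mod_cast hM1
        positivity
      have hle2 : (2 : ℤ) ^ (v' + 1) ≤ M := by
        have h6 : 2 ^ (v' + 1) ≤ M := by
          rw [hMv]
          obtain ⟨t, ht⟩ := hm'
          exact Nat.le_mul_of_pos_right _ (by omega)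
        exact_mod_cast h6
      have hle3 : (2 : ℤ) ^ n ≤ (b : ℤ) ^ 2 := by
        have h7 : (0 : ℤ) ≤ 2 * (a : ℤ) + (M : ℤ) := by positivity
        have h8 : (2 * (a : ℤ) + (M : ℤ)) * 2 ^ (v' + 1) ≤ (2 * (a : ℤ) + (M : ℤ)) * M :=
          mul_le_mul_of_nonneg_left hle2 h7
        have h9 : (b : ℤ) = a + M := by exact_mod_cast hM
        have h10 : (0 : ℤ) ≤ a := by positivity
        nlinarith
      have hle4 : 2 ^ n ≤ b ^ 2 := by exact_mod_cast hle3
      apply size n N hn hodd (by omega) _ h2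
      rw [hb, pow_add, mul_pow]
      omega
    · have h11 := sum_odd n M (a : ℤ) hMo
      have h12 : Even (∑ j ∈ range M, (2 * ((a : ℤ) + (j : ℤ)) + 1) ^ n) := by
        rw [even_iff_two_dvd]
        exact dvd_trans (dvd_pow_self 2 (by omega)) hdvd
      exact (Int.not_even_iff_odd.2 h11) h12
  · -- N odd
    have hb2 : N / 2 = b := by omega
    rw [hb2] at hZ
    obtain ⟨x1, hx1⟩ := sum_mod4 n hodd b
    obtain ⟨x2, hx2⟩ := sum_mod4 n hodd a
    obtain ⟨x3, hx3⟩ := odd_pow_mod4 n hodd (N : ℤ) (by rw [hb]; exact ⟨b, by push_cast; ring⟩)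
    obtain ⟨x4, hx4⟩ := h4
    rw [hx1, hx2, hx3, hx4, hb] at hZ
    push_cast at hZ
    -- b² - a² ≡ 2 b + 1 mod 4
    have hmod : ((b : ℤ) - 1) ^ 2 - (a : ℤ) ^ 2 = 2 + 4 * (x2 + x4 * w2 + x3 - x1 - x4 * w1) := by
      linear_combination hZ
    generalize x2 + x4 * w2 + x3 - x1 - x4 * w1 = z at hmod
    rcases Int.even_or_odd' ((b : ℤ) - 1) with ⟨p, hp | hp⟩ <;>
    rcases Int.even_or_odd' (a : ℤ) with ⟨q, hq | hq⟩ <;>
    · rw [hp, hq] at hmod
      ring_nf at hmod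
      omega

/-! ### even degrees -/

theorem main_val_even (n v m : ℕ) (c : ℤ) (hn : Even n) (hm : Odd m) (hc : Even c) :
    ∃ u : ℤ, Odd u ∧ ∑ j ∈ range (2 ^ (v + 1) * m),
      (c + (2 * (j : ℤ) - (((2 ^ (v + 1) * m : ℕ) : ℤ) - 1))) ^ n = 2 ^ (v + 1) * u := by
  obtain ⟨u, hu, hu2⟩ := R_val v m n hm hn
  have hdiv : ∀ e ∈ range n, (2 ^ (v + 2) : ℤ) ∣
      (n.choose e : ℤ) * c ^ (n - e) * R e (2 ^ (v + 1) * m) := by
    intro e he
    rw [Finset.mem_range] at he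
    rcases Nat.even_or_odd e with hev | hod
    · obtain ⟨u', _, hu'⟩ := R_val v m e hm hev
      rw [hu']
      obtain ⟨s, hs⟩ : ∃ s, n - e = s + 1 := ⟨n - 1 - e, by omega⟩
      obtain ⟨c', hc'⟩ := hc
      have hc2 : c = 2 * c' := by rw [hc']; ring
      refine ⟨(n.choose e : ℤ) * c ^ s * c' * u', ?_⟩
      rw [hs, pow_succ c s]
      nth_rewrite 2 [hc2]
      ring
    · rw [R_odd e _ hod, mul_zero]
      exact dvd_zero _
  obtain ⟨w, hw⟩ := Finset.dvd_sum hdiv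
  refine ⟨u + 2 * w, hu.add_even ⟨w, by ring⟩, ?_⟩
  rw [expand, Finset.sum_range_succ, hw, hu2]
  simp only [Nat.choose_self, Nat.sub_self, pow_zero]
  push_cast
  ring

/-- Bernoulli: if `N > 3 n` the two last terms are already too large -/
theorem bern (n N : ℕ) (hN : 2 ≤ N) (h3 : 3 * n < N) : N ^ n < (N - 1) ^ n + (N - 2) ^ n := by
  by_contra hcon
  have h2 : (N - 1) ^ n + (N - 2) ^ n ≤ N ^ n := not_lt.1 hcon
  have hNr : (0 : ℝ) < N := by exact_mod_cast (by omega : 0 < N)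
  have h3r : (3 : ℝ) * n < N := by exact_mod_cast h3
  have e1 : (((N - 1 : ℕ) : ℝ)) = (N : ℝ) * (1 + (-(1 / (N : ℝ)))) := by
    rw [Nat.cast_sub (by omega)]; field_simp; push_cast; ring
  have e2 : (((N - 2 : ℕ) : ℝ)) = (N : ℝ) * (1 + (-(2 / (N : ℝ)))) := by
    rw [Nat.cast_sub (by omega)]; field_simp; push_cast; ring
  have h2r : (((N - 1 : ℕ) : ℝ)) ^ n + (((N - 2 : ℕ) : ℝ)) ^ n ≤ (N : ℝ) ^ n := by
    exact_mod_cast h2
  rw [e1, e2, mul_pow, mul_pow] at h2r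
  have hN2 : (2 : ℝ) ≤ N := by exact_mod_cast hN
  have b1 := one_add_mul_le_pow (a := -(1 / (N : ℝ))) (by
    have : 1 / (N : ℝ) ≤ 1 := by rw [div_le_one hNr]; linarith
    linarith) n
  have b2 := one_add_mul_le_pow (a := -(2 / (N : ℝ))) (by
    have : 2 / (N : ℝ) ≤ 1 := by rw [div_le_one hNr]; linarith
    linarith) n
  have hp : (0 : ℝ) < (N : ℝ) ^ n := by positivity
  have b3 : (1 + (n : ℝ) * -(1 / (N : ℝ))) + (1 + (n : ℝ) * -(2 / (N : ℝ))) ≤ 1 := by
    have h4 : (N : ℝ) ^ n * ((1 + (-(1 / (N : ℝ)))) ^ n + (1 + (-(2 / (N : ℝ)))) ^ n) ≤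
        (N : ℝ) ^ n * 1 := by linarith
    have h5 := le_of_mul_le_mul_left h4 hp
    linarith
  have b4 : (n : ℝ) * (1 / (N : ℝ)) + (n : ℝ) * (2 / (N : ℝ)) < 1 := by
    have : (n : ℝ) * (1 / (N : ℝ)) + (n : ℝ) * (2 / (N : ℝ)) = 3 * n / N := by
      field_simp; ring
    rw [this, div_lt_one hNr]; exact h3r
  nlinarith

/-- `(1 - j / N) ^ n ≥ exp (-c)` when `j n ≤ c (N - j)` -/
theorem pow_lower (n N j : ℕ) (c : ℝ) (hj : j < N) (h : (j : ℝ) * n ≤ c * ((N : ℝ) - j)) :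
    (N : ℝ) ^ n * Real.exp (-c) ≤ ((N - j : ℕ) : ℝ) ^ n := by
  have hNj : (0 : ℝ) < (N : ℝ) - j := by
    have : (j : ℝ) < N := by exact_mod_cast hj
    linarith
  have hN : (0 : ℝ) < N := by
    have : (0 : ℝ) ≤ j := by positivity
    linarith
  rw [Nat.cast_sub hj.le]
  set x : ℝ := ((N : ℝ) - j) / N with hx
  have hxp : 0 < x := div_pos hNj hN
  have e1 : (N : ℝ) - j = N * x := by rw [hx]; field_simp
  rw [e1, mul_pow]
  apply mul_le_mul_of_nonneg_left _ (by positivity)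
  have h1 := Real.one_sub_inv_le_log_of_pos hxp
  have h2 : 1 - x⁻¹ = -(j / ((N : ℝ) - j)) := by
    rw [hx, inv_div]; field_simp; ring
  rw [h2] at h1
  have h3 : -c ≤ n * Real.log x := by
    have h4 : (n : ℝ) * (j / ((N : ℝ) - j)) ≤ c := by
      rw [mul_div_assoc', div_le_iff₀ hNj]; linarith
    have h5 : (n : ℝ) * (-(j / ((N : ℝ) - j))) ≤ n * Real.log x :=
      mul_le_mul_of_nonneg_left h1 (by positivity)
    linarith
  calc Real.exp (-c) ≤ Real.exp (n * Real.log x) := Real.exp_le_exp.2 h3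
    _ = x ^ n := by rw [mul_comm, Real.exp_mul, Real.exp_log hxp, Real.rpow_natCast]

theorem exp_lower (c : ℝ) (hc : c ≤ 64) : (1 - c / 64) ^ 64 ≤ Real.exp (-c) := by
  have h1 : 1 - c / 64 ≤ Real.exp (-c / 64) := by
    have := Real.add_one_le_exp (-c / 64)
    linarith
  have h2 : (1 - c / 64) ^ 64 ≤ (Real.exp (-c / 64)) ^ 64 :=
    pow_le_pow_left₀ (by linarith) h1 64
  have h3 : (Real.exp (-c / 64)) ^ 64 = Real.exp (-c) := by
    rw [← Real.exp_nat_mul]; congr 1; push_cast; ring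
  rwa [h3] at h2

/-- if `N ≥ 19` and `8 n ≤ 5 (N - 3)` then the four last terms are already too large -/
theorem four_terms (n N : ℕ) (hN : 19 ≤ N) (h : 8 * n + 15 ≤ 5 * N) :
    N ^ n < (N - 1) ^ n + (N - 2) ^ n + (N - 3) ^ n + (N - 4) ^ n := by
  have hr : (8 : ℝ) * n + 15 ≤ 5 * N := by exact_mod_cast h
  have hNr : (19 : ℝ) ≤ N := by exact_mod_cast hN
  have p1 := pow_lower n N 1 (5 / 8) (by omega) (by push_cast; linarith)
  have p2 := pow_lower n N 2 (5 / 4) (by omega) (by push_cast; linarith)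
  have p3 := pow_lower n N 3 (15 / 8) (by omega) (by push_cast; linarith)
  have p4 := pow_lower n N 4 (8 / 3) (by omega) (by push_cast; linarith)
  have q1 := exp_lower (5 / 8) (by norm_num)
  have q2 := exp_lower (5 / 4) (by norm_num)
  have q3 := exp_lower (15 / 8) (by norm_num)
  have q4 := exp_lower (8 / 3) (by norm_num)
  have r1 : (0.533 : ℝ) ≤ (1 - (5 / 8) / 64) ^ 64 := by norm_num
  have r2 : (0.282 : ℝ) ≤ (1 - (5 / 4) / 64) ^ 64 := by norm_num
  have r3 : (0.148 : ℝ) ≤ (1 - (15 / 8) / 64) ^ 64 := by norm_num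
  have r4 : (0.065 : ℝ) ≤ (1 - (8 / 3) / 64) ^ 64 := by norm_num
  have hp : (0 : ℝ) < (N : ℝ) ^ n := by positivity
  have hfin : (N : ℝ) ^ n < ((N - 1 : ℕ) : ℝ) ^ n + ((N - 2 : ℕ) : ℝ) ^ n +
      ((N - 3 : ℕ) : ℝ) ^ n + ((N - 4 : ℕ) : ℝ) ^ n := by
    have t1 : (N : ℝ) ^ n * 0.533 ≤ ((N - 1 : ℕ) : ℝ) ^ n :=
      le_trans (mul_le_mul_of_nonneg_left (le_trans r1 q1) hp.le) p1
    have t2 : (N : ℝ) ^ n * 0.282 ≤ ((N - 2 : ℕ) : ℝ) ^ n :=
      le_trans (mul_le_mul_of_nonneg_left (le_trans r2 q2) hp.le) p2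
    have t3 : (N : ℝ) ^ n * 0.148 ≤ ((N - 3 : ℕ) : ℝ) ^ n :=
      le_trans (mul_le_mul_of_nonneg_left (le_trans r3 q3) hp.le) p3
    have t4 : (N : ℝ) ^ n * 0.065 ≤ ((N - 4 : ℕ) : ℝ) ^ n :=
      le_trans (mul_le_mul_of_nonneg_left (le_trans r4 q4) hp.le) p4
    nlinarith
  exact_mod_cast hfin

theorem odd_pow_even (v r : ℕ) (x : ℤ) (hx : Odd x) :
    ∃ w : ℤ, x ^ (2 ^ (v + 1) * r) = 1 + 2 ^ (v + 3) * w := by
  have h1 : ∃ w : ℤ, x ^ (2 ^ (v + 1)) = 1 + 2 ^ (v + 3) * w := by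
    induction v with
    | zero =>
      obtain ⟨y, rfl⟩ := hx
      obtain ⟨z, hz⟩ := Int.even_mul_succ_self y
      refine ⟨z, ?_⟩
      have : (2 * y + 1) ^ 2 = 1 + 4 * (y * (y + 1)) := by ring
      simp only [zero_add, pow_one]
      rw [this, hz]; ring
    | succ v ih =>
      obtain ⟨w, hw⟩ := ih
      refine ⟨w + 2 ^ (v + 2) * w ^ 2, ?_⟩
      rw [pow_succ 2 (v + 1), pow_mul, hw]
      ring
  obtain ⟨w, hw⟩ := h1
  rw [pow_mul, hw]
  induction r with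
  | zero => exact ⟨0, by simp⟩
  | succ r ih =>
    obtain ⟨w', hw'⟩ := ih
    refine ⟨w' + w + 2 ^ (v + 3) * w' * w, ?_⟩
    rw [pow_succ, hw']
    ring

theorem sum_mod_even (v r : ℕ) : ∀ y : ℕ, ∃ w : ℤ,
    ∑ j ∈ range y, (2 * (j : ℤ) + 1) ^ (2 ^ (v + 1) * r) = (y : ℤ) + 2 ^ (v + 3) * w := by
  intro y
  induction y with
  | zero => exact ⟨0, by simp⟩
  | succ y ih =>
    obtain ⟨w, hw⟩ := ih
    obtain ⟨w', hw'⟩ := odd_pow_even v r (2 * (y : ℤ) + 1) ⟨y, rfl⟩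
    refine ⟨w + w', ?_⟩
    rw [Finset.sum_range_succ, hw, hw']
    push_cast
    ring

/-- two terms: `(y - 1) ^ n + y ^ n = (y + 1) ^ n` is impossible for even `n ≥ 4`, `y ≥ 2` -/
theorem two_terms (n y : ℕ) (hn : 4 ≤ n) (hev : Even n) (hy : 2 ≤ y)
    (h : (y - 1) ^ n + y ^ n = (y + 1) ^ n) : False := by
  -- expansion modulo `y ^ 3`
  have hexp : ∀ n : ℕ, ∃ c w w' : ℤ, (1 + (y : ℤ)) ^ n = 1 + n * y + c * y ^ 2 + w * y ^ 3 ∧
      (1 - (y : ℤ)) ^ n = 1 - n * y + c * y ^ 2 + w' * y ^ 3 := by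
    intro n
    induction n with
    | zero => exact ⟨0, 0, 0, by simp, by simp⟩
    | succ n ih =>
      obtain ⟨c, w, w', h1, h2⟩ := ih
      refine ⟨c + n, w + c + w * y, w' - c - w' * y, ?_, ?_⟩
      · rw [pow_succ, h1]; push_cast; ring
      · rw [pow_succ, h2]; push_cast; ring
  obtain ⟨c, w, w', h1, h2⟩ := hexp n
  have hZ : ((y : ℤ) - 1) ^ n + (y : ℤ) ^ n = ((y : ℤ) + 1) ^ n := by
    have : (((y - 1 : ℕ) : ℤ)) = (y : ℤ) - 1 := by push_cast [Nat.cast_sub (by omega : 1 ≤ y)]; ring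
    rw [← this]
    exact_mod_cast h
  have e1 : ((y : ℤ) - 1) ^ n = (1 - (y : ℤ)) ^ n := by
    rw [← hev.neg_pow]; congr 1; ring
  rw [e1, h2, add_comm (y : ℤ) 1, h1] at hZ
  -- size: n < y
  have hlt : n < y := by
    by_contra hcon
    have hyn : y ≤ n := not_lt.1 hcon
    have hyr : (0 : ℝ) < y := by exact_mod_cast (by omega : 0 < y)
    have b1 := one_add_mul_le_pow (a := 1 / (y : ℝ)) (by
      have : (0 : ℝ) ≤ 1 / (y : ℝ) := by positivity
      linarith) n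
    have b2 : (2 : ℝ) ≤ (1 + 1 / (y : ℝ)) ^ n := by
      have h3 : (1 : ℝ) ≤ n * (1 / (y : ℝ)) := by
        rw [mul_one_div, le_div_iff₀ hyr, one_mul]; exact_mod_cast hyn
      linarith
    have h4 : ((y : ℝ) + 1) ^ n = (y : ℝ) ^ n * (1 + 1 / (y : ℝ)) ^ n := by
      rw [← mul_pow]; congr 1; field_simp
    have h5 : (((y - 1 : ℕ) : ℝ)) ^ n + (y : ℝ) ^ n = ((y : ℝ) + 1) ^ n := by exact_mod_cast h
    have h6 : (((y - 1 : ℕ) : ℝ)) ^ n < (y : ℝ) ^ n := by
      apply pow_lt_pow_left₀ _ (by positivity) (by omega)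
      exact_mod_cast (by omega : y - 1 < y)
    have h7 : (0 : ℝ) < (y : ℝ) ^ n := by positivity
    nlinarith
  -- y ^ 3 divides 2 n y
  have hd : (y : ℤ) ^ 3 ∣ 2 * n * y := by
    obtain ⟨s, hs⟩ : ∃ s, n = s + 3 := ⟨n - 3, by omega⟩
    refine ⟨(y : ℤ) ^ s - w + w', ?_⟩
    have h8 : (y : ℤ) ^ n = y ^ s * y ^ 3 := by rw [← pow_add, ← hs]
    rw [h8] at hZ
    linarith
  have hle := Int.le_of_dvd (by
    have : (0 : ℤ) < y := by exact_mod_cast (by omega : 0 < y)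
    have : (0 : ℤ) < n := by exact_mod_cast (by omega : 0 < n)
    positivity) hd
  have hlt' : (n : ℤ) + 1 ≤ y := by exact_mod_cast hlt
  have hy2 : (2 : ℤ) ≤ y := by exact_mod_cast hy
  have hn4 : (4 : ℤ) ≤ n := by exact_mod_cast hn
  have h9 : (y : ℤ) ^ 3 = y * y * y := by ring
  nlinarith [mul_pos (by linarith : (0 : ℤ) < y) (by linarith : (0 : ℤ) < y)]

/-- three terms are impossible modulo 3 for even `n > 0` -/
theorem three_terms (n k : ℕ) (hn : 0 < n) (hev : Even n)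
    (h : k ^ n + (k + 1) ^ n + (k + 2) ^ n = (k + 3) ^ n) : False := by
  obtain ⟨r, hr⟩ := hev
  have hr2 : n = 2 * r := by omega
  have hsq : ∀ x : ℕ, x % 3 = 0 → x ^ n % 3 = 0 := by
    intro x hx
    rw [Nat.pow_mod, hx, Nat.zero_pow hn]
  have hsq1 : ∀ x : ℕ, x % 3 ≠ 0 → x ^ n % 3 = 1 := by
    intro x hx
    have h1 : x ^ 2 % 3 = 1 := by
      rcases (by omega : x % 3 = 1 ∨ x % 3 = 2) with h2 | h2 <;> simp [Nat.pow_mod, h2]
    rw [hr2, pow_mul, Nat.pow_mod, h1, one_pow]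
    norm_num
  have hm : (k ^ n + (k + 1) ^ n + (k + 2) ^ n) % 3 = (k + 3) ^ n % 3 := by rw [h]
  have h3 : (k + 3) ^ n % 3 = k ^ n % 3 := by
    rw [Nat.pow_mod, Nat.add_mod_right, ← Nat.pow_mod]
  rcases (by omega : k % 3 = 0 ∨ k % 3 = 1 ∨ k % 3 = 2) with h0 | h0 | h0
  · have a1 := hsq k h0
    have a2 := hsq1 (k + 1) (by omega)
    have a3 := hsq1 (k + 2) (by omega)
    omega
  · have a1 := hsq1 k (by omega)
    have a2 := hsq1 (k + 1) (by omega)
    have a3 := hsq (k + 2) (by omega)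
    omega
  · have a1 := hsq1 k (by omega)
    have a2 := hsq (k + 1) (by omega)
    have a3 := hsq1 (k + 2) (by omega)
    omega

/-- Let `n ≥ 4` and `k, m ≥ 1` with `k ^ n + ... + (k + m) ^ n = (k + m + 1) ^ n`.  Then
`n = 2 ^ v * o` with `v ≥ 1` and `o ≥ 7` odd, `k + m + 1` is odd, and the number `m + 1` of terms
is greater than `2 ^ (v + 3)` and congruent to `2` or `3` modulo `2 ^ (v + 3)`. -/
theorem result (n k m : ℕ) (hn : 4 ≤ n) (hk : 1 ≤ k) (hm : 1 ≤ m)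
    (heq : ∑ i ∈ Finset.Icc k (k + m), i ^ n = (k + m + 1) ^ n) :
    ∃ v o : ℕ, 1 ≤ v ∧ 7 ≤ o ∧ Odd o ∧ n = 2 ^ v * o ∧ Odd (k + m + 1) ∧
      2 ^ (v + 3) < m + 1 ∧ ((m + 1) % 2 ^ (v + 3) = 2 ∨ (m + 1) % 2 ^ (v + 3) = 3) := by
  have hev : Even n := by
    rcases Nat.even_or_odd n with h | h
    · exact h
    · exfalso
      have h5 : 5 ≤ n := by
        obtain ⟨r, rfl⟩ := h
        omega
      exact odd_case n k m h h5 hk hm heq
  obtain ⟨v, o, ho, hvo⟩ := Nat.exists_eq_two_pow_mul_odd (n := n) (by omega)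
  obtain ⟨v', rfl⟩ : ∃ v', v = v' + 1 := by
    rcases v with _ | v'
    · exfalso
      rw [pow_zero, one_mul] at hvo
      rw [hvo] at hev
      exact (Nat.not_even_iff_odd.2 ho) hev
    · exact ⟨v', rfl⟩
  have ho1 : 1 ≤ o := by obtain ⟨t, ht⟩ := ho; omega
  set N := k + m + 1 with hN
  have hIcc : Finset.Icc k (k + m) = Finset.Ico k N := by
    ext i; simp only [Finset.mem_Icc, Finset.mem_Ico]; omega
  have heq0 := heq
  rw [hIcc] at heq
  have h2 : (N - 1) ^ n + (N - 2) ^ n ≤ N ^ n := by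
    rw [← heq]
    have hsub : ({N - 1, N - 2} : Finset ℕ) ⊆ Finset.Ico k N := by
      intro x hx
      simp only [Finset.mem_insert, Finset.mem_singleton] at hx
      rw [Finset.mem_Ico]
      omega
    have h3 := Finset.sum_le_sum_of_subset (f := fun i => i ^ n) hsub
    rw [Finset.sum_pair (by omega)] at h3
    exact h3
  have hZ : ∑ i ∈ range N, (i : ℤ) ^ n = ∑ i ∈ range k, (i : ℤ) ^ n + (N : ℤ) ^ n := by
    have h3 : ∑ i ∈ Finset.Ico k N, (i : ℤ) ^ n = (N : ℤ) ^ n := by exact_mod_cast heq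
    rw [← h3, Finset.sum_range_add_sum_Ico _ (by omega)]
  obtain ⟨w1, hw1⟩ := range_half n N
  obtain ⟨w2, hw2⟩ := range_half n k
  rw [hw1, hw2] at hZ
  set a := k / 2 with ha
  rcases Nat.even_or_odd' N with ⟨b, hb | hb⟩
  · -- N even: impossible
    exfalso
    have hb2 : N / 2 = b := by omega
    rw [hb2] at hZ
    have hab : a + 1 ≤ b := by omega
    obtain ⟨M, hM⟩ : ∃ M, b = a + M := ⟨b - a, by omega⟩
    have hM1 : 1 ≤ M := by omega
    have hS : ∑ j ∈ range b, (2 * (j : ℤ) + 1) ^ n = ∑ j ∈ range a, (2 * (j : ℤ) + 1) ^ n +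
        ∑ j ∈ range M, (2 * ((a : ℤ) + (j : ℤ)) + 1) ^ n := by
      rw [hM, Finset.sum_range_add]
      simp only [Nat.cast_add]
    have hdvd : (2 : ℤ) ^ n ∣ ∑ j ∈ range M, (2 * ((a : ℤ) + (j : ℤ)) + 1) ^ n := by
      refine ⟨w2 - w1 + (b : ℤ) ^ n, ?_⟩
      have h5 : (N : ℤ) ^ n = 2 ^ n * (b : ℤ) ^ n := by
        rw [hb]; push_cast; rw [mul_pow]
      rw [hS, h5] at hZ
      linarith
    rcases Nat.even_or_odd M with hMe | hMo
    · obtain ⟨x, m', hm', hMv⟩ := Nat.exists_eq_two_pow_mul_odd (n := M) (by omega)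
      obtain ⟨x', rfl⟩ : ∃ x', x = x' + 1 := by
        rcases x with _ | x'
        · exfalso
          rw [pow_zero, one_mul] at hMv
          rw [hMv] at hMe
          exact (Nat.not_even_iff_odd.2 hm') hMe
        · exact ⟨x', rfl⟩
      have hC : Even ((2 * (a : ℤ) + (M : ℤ))) := by
        obtain ⟨t, ht⟩ := hMe
        refine ⟨a + t, ?_⟩
        rw [ht]; push_cast; ring
      obtain ⟨u, hu, hu2⟩ := main_val_even n x' m' (2 * (a : ℤ) + (M : ℤ)) hev hm' hC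
      rw [← hMv] at hu2
      have e1 : ∑ j ∈ range M, (2 * ((a : ℤ) + (j : ℤ)) + 1) ^ n =
          ∑ j ∈ range M, ((2 * (a : ℤ) + (M : ℤ)) + (2 * (j : ℤ) - ((M : ℤ) - 1))) ^ n := by
        apply Finset.sum_congr rfl
        intro j _
        congr 1
        ring
      rw [e1, hu2] at hdvd
      have hcop : IsCoprime ((2 : ℤ) ^ n) u := by
        apply IsCoprime.pow_left
        exact (Int.prime_two.coprime_iff_not_dvd).2
          (fun h => (Int.not_even_iff_odd.2 hu) (even_iff_two_dvd.2 h))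
      have hdvd2 : (2 : ℤ) ^ n ∣ 2 ^ (x' + 1) := hcop.dvd_of_dvd_mul_right hdvd
      have hdvd3 : 2 ^ n ∣ 2 ^ (x' + 1) := by exact_mod_cast hdvd2
      have hle : 2 ^ n ≤ 2 ^ (x' + 1) := Nat.le_of_dvd (by positivity) hdvd3
      have hle2 : 2 ^ (x' + 1) ≤ M := by
        rw [hMv]
        obtain ⟨t, ht⟩ := hm'
        exact Nat.le_mul_of_pos_right _ (by omega)
      have h3n : 3 * n < N := by
        have h7 : n - 1 < 2 ^ (n - 1) := Nat.lt_two_pow_self
        have h8 : 2 ^ n = 2 * 2 ^ (n - 1) := by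
          rw [← pow_succ']; congr 1; omega
        omega
      exact absurd (bern n N (by omega) h3n) (not_lt.2 h2)
    · have h11 := sum_odd n M (a : ℤ) hMo
      have h12 : Even (∑ j ∈ range M, (2 * ((a : ℤ) + (j : ℤ)) + 1) ^ n) := by
        rw [even_iff_two_dvd]
        exact dvd_trans (dvd_pow_self 2 (by omega)) hdvd
      exact (Int.not_even_iff_odd.2 h11) h12
  · -- N odd
    have hb2 : N / 2 = b := by omega
    rw [hb2] at hZ
    have hab : a + 1 ≤ b := by omega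
    have hvn : v' + 3 ≤ n := by
      have h7 : v' + 1 < 2 ^ (v' + 1) := Nat.lt_two_pow_self
      have h8 : 2 ^ (v' + 1) ≤ n := by rw [hvo]; exact Nat.le_mul_of_pos_right _ ho1
      rcases Nat.lt_or_ge v' 2 with h9 | h9
      · interval_cases v'
        · omega
        · omega
      · have h10 : 2 ^ (v' + 1) = 2 * 2 ^ v' := by rw [pow_succ]; ring
        have h11 : v' < 2 ^ v' := Nat.lt_two_pow_self
        omega
    obtain ⟨x1, hx1⟩ := sum_mod_even v' o b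
    obtain ⟨x2, hx2⟩ := sum_mod_even v' o a
    obtain ⟨x3, hx3⟩ := odd_pow_even v' o (N : ℤ) (by rw [hb]; exact ⟨b, by push_cast; ring⟩)
    obtain ⟨s, hs⟩ : ∃ s, n = v' + 3 + s := ⟨n - (v' + 3), by omega⟩
    have h2n : (2 : ℤ) ^ n = 2 ^ (v' + 3) * 2 ^ s := by rw [← pow_add, ← hs]
    rw [← hvo] at hx1 hx2 hx3
    rw [hx1, hx2, hx3, h2n] at hZ
    have hdv : (2 : ℤ) ^ (v' + 3) ∣ (b : ℤ) - a - 1 := by
      refine ⟨x2 + 2 ^ s * w2 + x3 - x1 - 2 ^ s * w1, ?_⟩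
      linear_combination hZ
    have hdv2 : 2 ^ (v' + 3) ∣ b - a - 1 := by
      have : ((b - a - 1 : ℕ) : ℤ) = (b : ℤ) - a - 1 := by omega
      rw [← this] at hdv
      exact_mod_cast hdv
    obtain ⟨q, hq⟩ := hdv2
    have hbq : b = a + 1 + 2 ^ (v' + 3) * q := by omega
    rcases Nat.eq_zero_or_pos q with hq0 | hq0
    · exfalso
      rw [hq0, mul_zero] at hbq
      rcases (by omega : k = 2 * a ∨ k = 2 * a + 1) with hk2 | hk2
      · -- three terms
        have hm2 : m = 2 := by omega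
        subst hm2
        rw [show Finset.Icc k (k + 2) = {k, k + 1, k + 2} by
          ext i; simp only [Finset.mem_Icc, Finset.mem_insert, Finset.mem_singleton]; omega] at heq0
        rw [Finset.sum_insert (by simp), Finset.sum_insert (by simp), Finset.sum_singleton] at heq0
        exact three_terms n k (by omega) hev (by rw [hN] at heq0; rw [add_assoc]; exact heq0)
      · have hm1 : m = 1 := by omega
        subst hm1
        rw [show Finset.Icc k (k + 1) = {k, k + 1} by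
          ext i; simp only [Finset.mem_Icc, Finset.mem_insert, Finset.mem_singleton]; omega] at heq0
        rw [Finset.sum_insert (by simp), Finset.sum_singleton] at heq0
        exact two_terms n (k + 1) hn hev (by omega) (by rw [Nat.add_sub_cancel]; exact heq0)
    · have hpow : 2 ^ (v' + 1 + 3) = 2 * 2 ^ (v' + 3) := by
        rw [show v' + 1 + 3 = (v' + 3) + 1 by ring, pow_succ]; ring
      have hqge : 2 ^ (v' + 3) ≤ 2 ^ (v' + 3) * q := Nat.le_mul_of_pos_right _ hq0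
      have hp8 : 8 ≤ 2 ^ (v' + 3) := by
        have : 2 ^ 3 ≤ 2 ^ (v' + 3) := Nat.pow_le_pow_right (by norm_num) (by omega)
        simpa using this
      have hm1 : m + 1 = 2 + 2 ^ (v' + 1 + 3) * q ∨ m + 1 = 3 + 2 ^ (v' + 1 + 3) * q := by
        have e : 2 ^ (v' + 1 + 3) * q = 2 * (2 ^ (v' + 3) * q) := by rw [hpow]; ring
        rw [e]
        omega
      refine ⟨v' + 1, o, by omega, ?_, ho, hvo, ⟨b, hb⟩, ?_, ?_⟩
      · by_contra hcon
        have ho5 : o ≤ 5 := by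
          obtain ⟨t, ht⟩ := ho
          omega
        have h8n : 8 * n ≤ 5 * (2 ^ (v' + 1 + 3)) := by
          have h9 : 8 * n = 2 ^ (v' + 1 + 3) * o := by
            rw [hvo, pow_add 2 (v' + 1) 3]; ring
          rw [h9, mul_comm]
          exact Nat.mul_le_mul_right _ ho5
        have hNbig : 2 ^ (v' + 1 + 3) + 3 ≤ N := by
          have e : 2 ^ (v' + 1 + 3) * q = 2 * (2 ^ (v' + 3) * q) := by rw [hpow]; ring
          omega
        have hft := four_terms n N (by omega) (by omega)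
        have hsub : ({N - 1, N - 2, N - 3, N - 4} : Finset ℕ) ⊆ Finset.Ico k N := by
          intro x hx
          simp only [Finset.mem_insert, Finset.mem_singleton] at hx
          rw [Finset.mem_Ico]
          have e : 2 ^ (v' + 1 + 3) * q = 2 * (2 ^ (v' + 3) * q) := by rw [hpow]; ring
          omega
        have h3 := Finset.sum_le_sum_of_subset (f := fun i => i ^ n) hsub
        rw [Finset.sum_insert (by simp only [Finset.mem_insert, Finset.mem_singleton]; omega),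
          Finset.sum_insert (by simp only [Finset.mem_insert, Finset.mem_singleton]; omega),
          Finset.sum_pair (by omega), heq] at h3
        omega
      · have e : 2 ^ (v' + 1 + 3) * q = 2 * (2 ^ (v' + 3) * q) := by rw [hpow]; ring
        omega
      · have h16 : 3 < 2 ^ (v' + 1 + 3) := by omega
        rcases hm1 with h | h
        · left
          rw [h, Nat.add_mul_mod_self_left, Nat.mod_eq_of_lt (by omega)]
        · right
          rw [h, Nat.add_mul_mod_self_left, Nat.mod_eq_of_lt h16]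

end Pool.Agent.Results.MP_d0b36d_nt.OddPart
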